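import Pool.Agent.helper91.MM.SpecB

set_option autoImplicit false

/-!
# MP_bfc607_gt, row mm:FUZ: the fusion step
-/

namespace Pool.Agent.MM

open Pool.Agent.Scheepers Filter Topology Cardinal

theorem FUZ_mono (S : Sys) {N M : ℕ} (hNM : N ≤ M) {B : Set (ℕ → Bool)} {l r : ℕ}
    (h : Lg S M B l r) : Lg S N B l r :=
  fun t ht w h1 h2 hw => h t (S.mono N M hNM ht) w (h1.trans hNM) (h2.trans hNM) hw

theorem FUZ (h1 : MAJ_stmt) : FUZ_stmt := by
  intro S p W b hW hconv c hc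
  classical
  -- one step
  have hstep : ∀ i J : ℕ, ∃ kJ : ℕ × ℕ,
      (∀ j, J ≤ j → Lg S (2 * i) (p.A j) (p.a j) (p.a (j + 1))) →
      (J < kJ.2 ∧ (∀ j, kJ.2 ≤ j → Lg S (2 * (i + 1)) (p.A j) (p.a j) (p.a (j + 1))) ∧
        Lg S i (p.blk (W i kJ.1) J kJ.2) (p.a J) (p.a kJ.2) ∧ ∀ i', i' ≤ i → c i' ∉ W i kJ.1) := by
    intro i J
    by_cases hJ : ∀ j, J ≤ j → Lg S (2 * i) (p.A j) (p.a j) (p.a (j + 1))
    · obtain ⟨k0, hk0⟩ := h1 S p i J hJ (W i) (b i) (hW i) (hconv i)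
      choose g hg using fun i' => hc i' i
      let k := max k0 ((Finset.range (i + 1)).sup g)
      obtain ⟨J1, hJ1⟩ := p.large (2 * (i + 1))
      obtain ⟨l, hl1, hl2⟩ := hk0 k (le_max_left _ _) (max (J + 1) J1)
      refine ⟨(k, l), fun _ => ⟨(le_max_left _ _).trans hl1, fun j hj =>
        hJ1 j (((le_max_right _ _).trans hl1).trans hj), hl2, fun i' hi' => ?_⟩⟩
      refine hg i' k (?_ : g i' ≤ k)
      exact (Finset.le_sup (f := g) (Finset.mem_range.2 (Nat.lt_succ_of_le hi'))).trans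
        (le_max_right _ _)
    · exact ⟨(0, 0), fun h => absurd h hJ⟩
  choose G hG using hstep
  obtain ⟨J0, hJ0⟩ := p.large 0
  let T : ℕ → ℕ := fun i => Nat.rec J0 (fun i J => (G i J).2) i
  have hS0 : T 0 = J0 := rfl
  have hSs : ∀ i, T (i + 1) = (G i (T i)).2 := fun i => rfl
  have hSL : ∀ i, ∀ j, T i ≤ j → Lg S (2 * i) (p.A j) (p.a j) (p.a (j + 1)) := by
    intro i
    induction i with
    | zero => intro j hj; exact hJ0 j hj
    | succ i ih =>
      intro j hj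
      exact (hG i (T i) ih).2.1 j hj
  have hSlt : ∀ i, T i < T (i + 1) := fun i => (hG i (T i) (hSL i)).1
  have hSmono : StrictMono T := strictMono_nat_of_lt_succ hSlt
  let κ : ℕ → ℕ := fun i => (G i (T i)).1
  let q : Cnd S :=
    { a := fun i => p.a (T i)
      A := fun i => p.blk (W i (κ i)) (T i) (T (i + 1))
      mono := p.mono.comp hSmono
      loc := by
        rintro i u v huv ⟨hu1, hu2⟩
        refine ⟨fun j hj hj' => p.loc j u v (fun e he he' => huv e ?_ ?_) (hu1 j hj hj'), ?_⟩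
        · exact (p.mono.monotone hj).trans he
        · exact lt_of_lt_of_le he' (p.mono.monotone hj')
        · intro v' hv'
          refine hu2 v' (fun e he he' => ?_)
          rw [hv' e he he', huv e he he']
      large := fun N => ⟨N, fun j hj => FUZ_mono S hj ((hG j (T j) (hSL j)).2.2.1)⟩ }
  refine ⟨q, ⟨0, fun i _ => ⟨⟨T i, rfl⟩, ?_⟩⟩, κ, ?_, ?_⟩
  · rintro z ⟨hz, -⟩ j hj hj'
    exact hz j (p.mono.le_iff_le.1 hj) (p.mono.le_iff_le.1 hj')
  · rintro z ⟨I, hI⟩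
    exact ⟨I, fun n hn => (hI n hn).2 z (fun _ _ _ => rfl)⟩
  · intro i
    exact ⟨i, fun n hn => (hG n (T n) (hSL n)).2.2.2 i hn⟩


end Pool.Agent.MM
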