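import Pool.Agent.helper91.MM.SpecB

set_option autoImplicit false

/-!
# MP_bfc607_gt, row mm:ONE: the first CH theorem
-/

namespace Pool.Agent.MM

open Pool.Agent.Scheepers Filter Topology Cardinal

theorem ONE (h1 : FIA_stmt) (h2 : SYA_stmt) (h3 : PTA_stmt) (h4 : REZ_stmt) : ONE_stmt := by
  intro hCH k hk hk1
  obtain ⟨S, hV, hP⟩ := h2 k hk
  have hcard : #(ℕ → ℕ) ≤ Cardinal.continuum.{0} := by
    simp
  obtain ⟨X, hX1, hX2, hX3⟩ := h4 S (ℕ → ℕ) (fun h => {z | ∀ n, z ∈ F (n, h n)}) hcard hCH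
    (fun p h => h3 k hk1 S hV p h)
  refine h1 k X (fun z hz n => ?_) hX2 hX3
  have h5 : z ∈ S.P := hX1 hz
  rw [hP] at h5
  exact h5 n

end Pool.Agent.MM
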